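import Pool.Agent.helper40.FR.Bridge

/-!
# Leaves of frames are terminal

The definitions are in `Pool/Agent/helper40/FR/Stmt.lean`. They are used here for
`𝒪 = ℤ_p[X] / (Φ_p)`, the ring of integers of `K = ℚ_p(θ)`, where `θ`, the class of `X`, is a
primitive `p`-th root of unity.
-/

namespace Pool.Agent.Results.MP_f00966_al.LeavesTerminal

open Pool.Agent.helper40.FS Polynomial

/-- For every prime `p ≥ 5` and every `i > p + 1`, each leaf of the frame `ℱ_i` is terminal in the
branch `ℬ_i`. -/
theorem result (p : ℕ) [Fact p.Prime] (hp : 5 ≤ p) (i : ℕ) (hi : p + 1 < i) (G : GrpCat.{0})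
    (hG : IsLeaf p (AdjoinRoot.root (cyclotomic p ℤ_[p])) i G) :
    IsTerminal p (AdjoinRoot.root (cyclotomic p ℤ_[p])) i G :=
  leaf_terminal hp i hi G hG

end Pool.Agent.Results.MP_f00966_al.LeavesTerminal
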